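import Pool.Agent.Helper70.BI.HH.StHC

/-!
# Project BI, stage 7 (H): module WEX
-/

set_option autoImplicit false

open scoped Topology unitInterval
open Set

namespace Pool.Agent.Helper70.HH

namespace WEX

open Path.Homotopic

theorem cancel₁ {Z : Type} [TopologicalSpace Z] {p q r : Z} (a : Path.Homotopic.Quotient p q)
    (b : Path.Homotopic.Quotient p r) : a.trans (a.symm.trans b) = b := by
  rw [← Quotient.trans_assoc, Quotient.trans_symm, Quotient.refl_trans]

theorem cancel₂ {Z : Type} [TopologicalSpace Z] {p q r : Z} (a : Path.Homotopic.Quotient p q)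
    (b : Path.Homotopic.Quotient q r) : a.symm.trans (a.trans b) = b := by
  rw [← Quotient.trans_assoc, Quotient.symm_trans, Quotient.refl_trans]

theorem map_tr {Z Y : Type} [TopologicalSpace Z] [TopologicalSpace Y] {p q r : Z}
    (a : Path.Homotopic.Quotient p q) (b : Path.Homotopic.Quotient q r) (f : C(Z, Y)) :
    (a.trans b).map f = (a.map f).trans (b.map f) := by
  induction a using Path.Homotopic.Quotient.ind with | mk a =>
  induction b using Path.Homotopic.Quotient.ind with | mk b =>
  rw [← Quotient.mk_trans, ← Quotient.mk_map, ← Quotient.mk_map, ← Quotient.mk_map,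
    ← Quotient.mk_trans, Path.map_trans]

/-- choice of 2-cells to a representative of each component -/
theorem reps (Z : Type) [TopologicalSpace Z] :
    ∃ (C : Type) (cl : Z → C) (out : C → Z)
      (_ : ∀ (p : Z) (d : C), cl p = d → Path.Homotopic.Quotient p (out d)),
      ∀ p q : Z, Nonempty (Path.Homotopic.Quotient p q) → cl p = cl q := by
  let s : Setoid Z :=
    { r := fun p q => Nonempty (Path.Homotopic.Quotient p q)
      iseqv :=
        { refl := fun p => ⟨Quotient.refl p⟩
          symm := fun ⟨a⟩ => ⟨a.symm⟩
          trans := fun ⟨a⟩ ⟨b⟩ => ⟨a.trans b⟩ } }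
  refine ⟨_root_.Quotient s, fun p => _root_.Quotient.mk s p, fun d => d.out, fun p d h =>
    Classical.choice ?_, fun p q h => _root_.Quotient.sound h⟩
  have h1 : _root_.Quotient.mk s p = _root_.Quotient.mk s d.out :=
    (show _root_.Quotient.mk s p = d from h).trans (_root_.Quotient.out_eq d).symm
  exact _root_.Quotient.exact h1

theorem wexA (Z : Type) [TopologicalSpace Z] (M : Type) [AddCommGroup M]
    (c : ∀ p : Z, Path.Homotopic.Quotient p p → M)
    (hmul : ∀ (p : Z) (α β : Path.Homotopic.Quotient p p), c p (α.trans β) = c p α + c p β)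
    (hcyc : ∀ (p q : Z) (α : Path.Homotopic.Quotient p q) (β : Path.Homotopic.Quotient q p),
      c p (α.trans β) = c q (β.trans α)) :
    ∃ w : ∀ p q : Z, Path.Homotopic.Quotient p q → M,
      (∀ (p q r : Z) (α : Path.Homotopic.Quotient p q) (β : Path.Homotopic.Quotient q r),
        w p r (α.trans β) = w p q α + w q r β) ∧
      ∀ (p : Z) (α : Path.Homotopic.Quotient p p), w p p α = c p α := by
  obtain ⟨C, cl, out, k, hcl⟩ := reps Z
  let V : ∀ (d : C) (p q : Z), cl p = d → cl q = d → Path.Homotopic.Quotient p q → M :=
    fun d p q hp hq α => c p (α.trans ((k q d hq).trans (k p d hp).symm))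
  let w : ∀ p q : Z, Path.Homotopic.Quotient p q → M :=
    fun p q α => V (cl p) p q rfl (hcl p q ⟨α⟩).symm α
  have hw : ∀ (d : C) (p q : Z) (hp : cl p = d) (hq : cl q = d)
      (α : Path.Homotopic.Quotient p q), V d p q hp hq α = w p q α := by
    intro d p q hp hq α
    subst hp
    rfl
  refine ⟨w, ?_, ?_⟩
  · intro p q r α β
    have hq : cl q = cl p := (hcl p q ⟨α⟩).symm
    have hr : cl r = cl p := (hcl p r ⟨α.trans β⟩).symm
    rw [← hw (cl p) p r rfl hr, ← hw (cl p) p q rfl hq, ← hw (cl p) q r hq hr]
    have e1 : V (cl p) q r hq hr β =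
        c p (((k p (cl p) rfl).trans (k q (cl p) hq).symm).trans
          ((β.trans ((k r (cl p) hr).trans (k q (cl p) hq).symm)).trans
            ((k q (cl p) hq).trans (k p (cl p) rfl).symm))) := by
      rw [hcyc]
      show c q _ = c q _
      congr 1
      simp only [Quotient.trans_assoc, cancel₂]
    rw [e1]
    show c p _ = c p _ + c p _
    rw [← hmul]
    congr 1
    simp only [Quotient.trans_assoc, cancel₂, cancel₁]
  · intro p α
    show c p _ = c p _
    congr 1
    rw [Quotient.trans_symm, Quotient.trans_refl]

theorem wexB (Z : Type) [TopologicalSpace Z] (M : Type) [AddCommGroup M]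
    (u : ∀ p q : Z, Path.Homotopic.Quotient p q → M)
    (hadd : ∀ (p q r : Z) (α : Path.Homotopic.Quotient p q) (β : Path.Homotopic.Quotient q r),
        u p r (α.trans β) = u p q α + u q r β)
    (hz : ∀ (p : Z) (α : Path.Homotopic.Quotient p p), u p p α = 0) :
    ∃ g : Z → M, ∀ (p q : Z) (α : Path.Homotopic.Quotient p q), u p q α = g q - g p := by
  obtain ⟨C, cl, out, k, hcl⟩ := reps Z
  let G : ∀ (d : C) (p : Z), cl p = d → M := fun d p hp => - u p (out d) (k p d hp)
  let g : Z → M := fun p => G (cl p) p rfl
  have hg : ∀ (d : C) (p : Z) (hp : cl p = d), G d p hp = g p := by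
    intro d p hp
    subst hp
    rfl
  refine ⟨g, ?_⟩
  intro p q α
  have hq : cl q = cl p := (hcl p q ⟨α⟩).symm
  rw [← hg (cl p) q hq, ← hg (cl p) p rfl]
  show u p q α = - u q _ _ - - u p _ _
  have h1 := hz p (α.trans ((k q (cl p) hq).trans (k p (cl p) rfl).symm))
  rw [hadd, hadd] at h1
  have h2 := hz p ((k p (cl p) rfl).trans (k p (cl p) rfl).symm)
  rw [hadd] at h2
  have h3 : u p q α + u q (out (cl p)) (k q (cl p) hq) = u p (out (cl p)) (k p (cl p) rfl) := by
    have : u p q α + u q (out (cl p)) (k q (cl p) hq) - u p (out (cl p)) (k p (cl p) rfl) =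
        (u p q α + (u q (out (cl p)) (k q (cl p) hq) +
          u (out (cl p)) p (k p (cl p) rfl).symm)) -
        (u p (out (cl p)) (k p (cl p) rfl) + u (out (cl p)) p (k p (cl p) rfl).symm) := by
      abel
    rw [h1, h2, sub_zero] at this
    exact sub_eq_zero.1 this
  rw [← h3]
  abel

end WEX

open WEX in
theorem m_WEX (hHL : StHL) : StWEX := by
  have _ := hHL
  intro X _ M _ cc hcc
  have hA := fun x y : X => wexA (Path x y) M (fun p => cc p)
    (fun p α β => hcc.mul p α β) (fun p q α β => hcc.cyc p q α β)
  choose W hWadd hWcl using hA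
  have hB : ∀ x y z : X, ∃ g : Path x y × Path y z → M,
      ∀ (P Q : Path x y × Path y z) (γ : Path.Homotopic.Quotient P Q),
        W x z (P.1.trans P.2) (Q.1.trans Q.2)
            (γ.map ⟨fun u : Path x y × Path y z => u.1.trans u.2,
              continuous_fst.path_trans continuous_snd⟩) -
          W x y P.1 Q.1 (Path.Homotopic.projLeft γ) -
          W y z P.2 Q.2 (Path.Homotopic.projRight γ) = g Q - g P := by
    intro x y z
    refine wexB (Path x y × Path y z) M (fun P Q γ =>
        W x z (P.1.trans P.2) (Q.1.trans Q.2)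
            (γ.map ⟨fun u : Path x y × Path y z => u.1.trans u.2,
              continuous_fst.path_trans continuous_snd⟩) -
          W x y P.1 Q.1 (Path.Homotopic.projLeft γ) -
          W y z P.2 Q.2 (Path.Homotopic.projRight γ)) ?_ ?_
    · intro P Q R α β
      show W x z _ _ _ - W x y _ _ _ - W y z _ _ _ = _
      unfold Path.Homotopic.projLeft Path.Homotopic.projRight
      rw [map_tr, map_tr, map_tr]
      have e1 := hWadd x z (P.1.trans P.2) (Q.1.trans Q.2) (R.1.trans R.2)
        (α.map ⟨fun u : Path x y × Path y z => u.1.trans u.2,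
              continuous_fst.path_trans continuous_snd⟩)
        (β.map ⟨fun u : Path x y × Path y z => u.1.trans u.2,
              continuous_fst.path_trans continuous_snd⟩)
      have e2 := hWadd x y P.1 Q.1 R.1 (α.map ⟨_, continuous_fst⟩) (β.map ⟨_, continuous_fst⟩)
      have e3 := hWadd y z P.2 Q.2 R.2 (α.map ⟨_, continuous_snd⟩) (β.map ⟨_, continuous_snd⟩)
      erw [e1, e2, e3]
      abel
    · rintro ⟨p, q⟩ α
      have h1 := hWcl x z (p.trans q) (hc (Path.Homotopic.projLeft α) (Path.Homotopic.projRight α))
      have h2 := hWcl x y p (Path.Homotopic.projLeft α)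
      have h3 := hWcl y z q (Path.Homotopic.projRight α)
      have h4 := hcc.hor p q (Path.Homotopic.projLeft α) (Path.Homotopic.projRight α)
      have h5 : hc (Path.Homotopic.projLeft α) (Path.Homotopic.projRight α) =
          α.map ⟨fun u : Path x y × Path y z => u.1.trans u.2,
              continuous_fst.path_trans continuous_snd⟩ := by
        show Path.Homotopic.Quotient.map (Path.Homotopic.prod (Path.Homotopic.projLeft α)
          (Path.Homotopic.projRight α)) _ = _
        rw [Path.Homotopic.prod_projLeft_projRight]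
      rw [h5] at h1 h4
      show W x z (p.trans q) (p.trans q) _ - W x y p p _ - W y z q q _ = 0
      erw [h1, h2, h3, h4]
      abel
  choose g hg using hB
  refine ⟨fun {x y} {p q} α => W x y p q α, fun {x y z} p q => g x y z (p, q), ?_⟩
  constructor
  · intro x y p q r α β
    exact hWadd x y p q r α β
  · intro x y p α
    exact hWcl x y p α
  · intro x y z p p' q q' α β
    have h := hg x y z (p, q) (p', q') (Path.Homotopic.prod α β)
    rw [Path.Homotopic.projLeft_prod, Path.Homotopic.projRight_prod] at h
    have h' : W x z (p.trans q) (p'.trans q') (hc α β) - W x y p p' α - W y z q q' β =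
      g x y z (p', q') - g x y z (p, q) := h
    show W x z (p.trans q) (p'.trans q') (hc α β) = W x y p p' α + W y z q q' β +
      g x y z (p', q') - g x y z (p, q)
    have : W x z (p.trans q) (p'.trans q') (hc α β) =
      (W x z (p.trans q) (p'.trans q') (hc α β) - W x y p p' α - W y z q q' β) +
        W x y p p' α + W y z q q' β := by abel
    rw [this, h']
    abel

end Pool.Agent.Helper70.HH
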